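import Pool.Agent.Work.MP_2738db_nt_Y.Interface

/-!
# Block GAP2: the gap principle from two logarithms
-/

set_option autoImplicit false

namespace Pool.Agent.Work.MP_2738db_nt_Y.helper94

open Finset Real

/-- superadditivity of powers -/
theorem pow_add_lt {a b p : ℕ} (ha : 1 ≤ a) (hb : 1 ≤ b) (hp : 2 ≤ p) :
    a ^ p + b ^ p < (a + b) ^ p := by
  obtain ⟨q, rfl⟩ : ∃ q, p = q + 1 := ⟨p - 1, by omega⟩
  have hq : q ≠ 0 := by omega
  have h1 : a ^ q ≤ (a + b) ^ q := Nat.pow_le_pow_left (by omega) q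
  have h2 : b ^ q < (a + b) ^ q := Nat.pow_lt_pow_left (by omega) hq
  calc a ^ (q + 1) + b ^ (q + 1) = a * a ^ q + b * b ^ q := by ring
    _ < a * (a + b) ^ q + b * (a + b) ^ q := by
        have h3 : a * a ^ q ≤ a * (a + b) ^ q := Nat.mul_le_mul_left _ h1
        have h4 : b * b ^ q < b * (a + b) ^ q := Nat.mul_lt_mul_of_pos_left h2 hb
        omega
    _ = (a + b) ^ (q + 1) := by ring

/-- distinct positive integers have distant logarithms -/
theorem log_sub_ge {a b : ℕ} (ha : 1 ≤ a) (hb : 1 ≤ b) (hab : a ≠ b) {Y : ℝ}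
    (h1 : (a : ℝ) ≤ Y) (h2 : (b : ℝ) ≤ Y) : 1 / Y ≤ |Real.log a - Real.log b| := by
  have key : ∀ {a b : ℕ}, 1 ≤ a → 1 ≤ b → b < a → (a : ℝ) ≤ Y →
      1 / Y ≤ Real.log a - Real.log b := by
    intro a b ha hb hab h1
    have ha' : (0:ℝ) < a := by exact_mod_cast ha
    have hb' : (0:ℝ) < b := by exact_mod_cast hb
    have hY : 0 < Y := lt_of_lt_of_le ha' h1
    have h3 := Real.one_sub_inv_le_log_of_pos (div_pos ha' hb')
    rw [Real.log_div ha'.ne' hb'.ne'] at h3
    have h4 : ((b : ℝ) + 1) ≤ a := by exact_mod_cast hab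
    have h5 : 1 / (a : ℝ) ≤ 1 - ((a : ℝ) / b)⁻¹ := by
      rw [inv_div, div_le_iff₀ ha', sub_mul, one_mul, div_mul_cancel₀ _ ha'.ne']
      linarith
    have h6 : 1 / Y ≤ 1 / (a : ℝ) := one_div_le_one_div_of_le ha' h1
    linarith
  rcases lt_or_gt_of_ne hab with h | h
  · rw [abs_sub_comm]
    exact (key hb ha h h2).trans (le_abs_self _)
  · exact (key ha hb h h1).trans (le_abs_self _)

theorem core (C₁ : ℝ) (hC₁ : 1 ≤ C₁)
    (hArq : ∀ (X₁ X₂ Y k₀ l : ℕ) (A B : ℝ), 1 ≤ X₁ → 1 ≤ X₂ → 2 ≤ Y → 1 ≤ k₀ → 1 ≤ l →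
      Nat.Coprime l k₀ → 1 ≤ A → 1 ≤ B → Real.log X₁ ≤ A → Real.log X₂ ≤ A → Real.log Y ≤ B →
      (k₀ : ℝ) ≤ A * l → C₁ * B * (1 + Real.log l) ≤ l →
      Real.exp (-(C₁ * (A * B) * (1 + Real.log l) ^ 2)) ≤
        |l * (Real.log X₁ - Real.log X₂) - k₀ * Real.log Y|)
    (p k c N U : ℕ) (M e : ℝ) (h3 : 3 ≤ p) (hk : 2 ≤ k) (hc : 1 ≤ c) (hN : 1 ≤ N)
    (he0 : 0 < e) (hΔ : |k * Real.log c - p * Real.log N| ≤ 4 * p * e) (hne : c ^ k ≠ N ^ p)
    (hcM : k * Real.log c ≤ M) (hNM : p * Real.log N ≤ M + p * Real.log 2)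
    (hM : k * Real.log 2 ≤ M) (hU : U ^ k = N ∨ U ^ k = p * N)
    (hreg : 20 * C₁ * (p * Real.log k ^ 3) ≤ k) :
    -(p * Real.log e) ≤ 36 * C₁ * (p * Real.log k ^ 3 / k) * M := by
  have hlog2 := Real.log_two_gt_d9
  have hlog2' := Real.log_two_lt_d9
  set L := Real.log k with hL
  have hkpos : (0:ℝ) < k := by exact_mod_cast (by omega : 0 < k)
  have hppos : (0:ℝ) < p := by exact_mod_cast (by omega : 0 < p)
  have hk2 : (2:ℝ) ≤ k := by exact_mod_cast hk
  have hL2 : Real.log 2 ≤ L := Real.log_le_log (by norm_num) hk2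
  have hL069 : 0.69 ≤ L := by linarith
  have hLpos : 0 < L := by linarith
  have hL3 : 1 / 4 ≤ L ^ 3 := by
    have : (0.69 : ℝ) ^ 3 ≤ L ^ 3 := pow_le_pow_left₀ (by norm_num) hL069 3
    norm_num at this ⊢
    linarith
  have hMpos : 0 < M := lt_of_lt_of_le (by positivity) hM
  -- `p ≤ k`
  have hpk : (p : ℝ) ≤ k := by
    have h1 : (p : ℝ) * 1 ≤ 20 * C₁ * (p * L ^ 3) := by
      have h0 : (1:ℝ) * (1 / 4) ≤ C₁ * L ^ 3 := mul_le_mul hC₁ hL3 (by norm_num) (by linarith)
      have : (1:ℝ) ≤ 20 * C₁ * L ^ 3 := by linarith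
      calc (p : ℝ) * 1 ≤ p * (20 * C₁ * L ^ 3) := mul_le_mul_of_nonneg_left this hppos.le
        _ = _ := by ring
    linarith
  have hlogp : Real.log p ≤ L := Real.log_le_log hppos hpk
  set X : ℝ := p * L ^ 3 / k with hX
  have hXpos : 0 < X := by positivity
  -- `p M / k ≤ 4 X M`
  have hpX : (p : ℝ) / k * M ≤ 4 * X * M := by
    apply mul_le_mul_of_nonneg_right _ hMpos.le
    rw [hX]
    have : (p : ℝ) / k = p / k * 1 := by ring
    calc (p : ℝ) / k = p / k * 1 := by ring
      _ ≤ p / k * (4 * L ^ 3) := mul_le_mul_of_nonneg_left (by linarith) (by positivity)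
      _ = _ := by ring
  have hUpos : 1 ≤ U := by
    rcases Nat.eq_zero_or_pos U with h0 | h0
    · exfalso
      rw [h0, zero_pow (by omega)] at hU
      rcases hU with h | h
      · omega
      · rcases Nat.mul_eq_zero.mp h.symm with h' | h' <;> omega
    · exact h0
  have hU0 : (0:ℝ) < U := by exact_mod_cast hUpos
  have hN0 : (0:ℝ) < N := by exact_mod_cast hN
  have hc0 : (0:ℝ) < c := by exact_mod_cast hc
  rcases hU with hU | hU
  · -- first case
    have hlogN : Real.log N = k * Real.log U := by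
      rw [← hU, Nat.cast_pow, Real.log_pow]
    have hne' : c ≠ U ^ p := by
      intro h
      apply hne
      rw [h, ← hU, ← pow_mul, ← pow_mul, mul_comm]
    have hlogc : Real.log c ≤ M / k := by
      rw [le_div_iff₀ hkpos, mul_comm]; exact hcM
    have hlogU : Real.log ((U ^ p : ℕ) : ℝ) ≤ M / k + Real.log 2 := by
      rw [Nat.cast_pow, Real.log_pow]
      have h1 : (p : ℝ) * (k * Real.log U) ≤ M + p * Real.log 2 := by rw [← hlogN]; exact hNM
      have h2 : (p : ℝ) * Real.log U ≤ (M + p * Real.log 2) / k := by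
        rw [le_div_iff₀ hkpos]
        linarith
      have h3 : (M + p * Real.log 2) / k ≤ M / k + Real.log 2 := by
        rw [add_div, mul_div_right_comm]
        have : (p : ℝ) / k ≤ 1 := (div_le_one hkpos).mpr hpk
        have := mul_le_mul_of_nonneg_right this (by linarith : 0 ≤ Real.log 2)
        linarith
      exact h2.trans h3
    set Y : ℝ := Real.exp (M / k + Real.log 2) with hY
    have hY1 : (c : ℝ) ≤ Y := by
      rw [← Real.log_le_iff_le_exp hc0]
      linarith
    have hUp0 : (0:ℝ) < ((U ^ p : ℕ) : ℝ) := by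
      exact_mod_cast Nat.pow_pos hUpos
    have hY2 : ((U ^ p : ℕ) : ℝ) ≤ Y := by
      rw [← Real.log_le_iff_le_exp hUp0]
      exact hlogU
    have h4 := log_sub_ge hc (Nat.one_le_pow _ _ hUpos) hne' hY1 hY2
    have h5 : k * Real.log c - p * Real.log N = k * (Real.log c - Real.log ((U ^ p : ℕ) : ℝ)) := by
      rw [hlogN, Nat.cast_pow, Real.log_pow]; ring
    rw [h5, abs_mul, abs_of_pos hkpos] at hΔ
    have hYpos : 0 < Y := Real.exp_pos _
    have h6 : (k : ℝ) * (1 / Y) ≤ 4 * p * e := (mul_le_mul_of_nonneg_left h4 hkpos.le).trans hΔ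
    have h7 : (p : ℝ) * (1 / Y) ≤ 4 * p * e :=
      (mul_le_mul_of_nonneg_right hpk (by positivity)).trans h6
    have h8 : 1 / Y ≤ 4 * e := by
      have : (p : ℝ) * (1 / Y) ≤ p * (4 * e) := by linarith
      exact le_of_mul_le_mul_left this hppos
    have h9 : Real.log (1 / Y) ≤ Real.log (4 * e) := Real.log_le_log (by positivity) h8
    rw [one_div, Real.log_inv, hY, Real.log_exp, Real.log_mul (by norm_num) he0.ne',
      show (4:ℝ) = 2 ^ 2 by norm_num, Real.log_pow] at h9
    have h10 : -Real.log e ≤ M / k + 3 * Real.log 2 := by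
      push_cast at h9
      linarith
    have h11 : -(p * Real.log e) ≤ p / k * M + 3 * (p * Real.log 2) := by
      calc -(p * Real.log e) = p * -Real.log e := by ring
        _ ≤ p * (M / k + 3 * Real.log 2) := mul_le_mul_of_nonneg_left h10 hppos.le
        _ = _ := by ring
    have h12 : (p : ℝ) * Real.log 2 ≤ p / k * M := by
      rw [div_mul_eq_mul_div, le_div_iff₀ hkpos]
      calc (p : ℝ) * Real.log 2 * k = p * (k * Real.log 2) := by ring
        _ ≤ p * M := mul_le_mul_of_nonneg_left hM hppos.le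
    have h13 : 16 * (X * M) ≤ 36 * C₁ * X * M := by
      have : 0 < X * M := by positivity
      have h14 := mul_le_mul_of_nonneg_right hC₁ this.le
      linarith
    linarith
  · -- second case
    have hlogN : k * Real.log U = Real.log p + Real.log N := by
      rw [← Real.log_mul hppos.ne' hN0.ne', ← Real.log_pow, ← Nat.cast_pow, hU, Nat.cast_mul]
    set g := Nat.gcd k p with hg
    have hgpos : 0 < g := Nat.gcd_pos_of_pos_left _ (by omega)
    obtain ⟨l, hl⟩ : g ∣ k := Nat.gcd_dvd_left k p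
    obtain ⟨k₀, hk₀⟩ : g ∣ p := Nat.gcd_dvd_right k p
    have hlpos : 1 ≤ l := by
      rcases Nat.eq_zero_or_pos l with h | h
      · rw [h, mul_zero] at hl; omega
      · exact h
    have hk₀pos : 1 ≤ k₀ := by
      rcases Nat.eq_zero_or_pos k₀ with h | h
      · rw [h, mul_zero] at hk₀; omega
      · exact h
    have hcop : Nat.Coprime l k₀ := by
      have h1 : k / g = l := by rw [hl]; exact Nat.mul_div_cancel_left _ hgpos
      have h2 : p / g = k₀ := by rw [hk₀]; exact Nat.mul_div_cancel_left _ hgpos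
      rw [← h1, ← h2]
      exact Nat.coprime_div_gcd_div_gcd hgpos
    have hgR : (1:ℝ) ≤ g := by exact_mod_cast hgpos
    have hlR : (1:ℝ) ≤ l := by exact_mod_cast hlpos
    have hkl : (k : ℝ) = g * l := by exact_mod_cast hl
    have hpk₀ : (p : ℝ) = g * k₀ := by exact_mod_cast hk₀
    have hgp : (g : ℝ) ≤ p := by
      have : g ≤ p := Nat.le_of_dvd (by omega) (Nat.gcd_dvd_right k p)
      exact_mod_cast this
    have hlk : (l : ℝ) ≤ k := by
      rw [hkl]
      exact le_mul_of_one_le_left (by linarith) hgR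
    have hlogl : Real.log l ≤ L := Real.log_le_log (by linarith) hlk
    have hlogl0 : 0 ≤ Real.log l := Real.log_nonneg hlR
    have hMk : Real.log 2 ≤ M / k := by rw [le_div_iff₀ hkpos]; linarith
    have hp3 : (3:ℝ) ≤ p := by exact_mod_cast h3
    have hlogp1 : 1 ≤ Real.log p := by
      rw [Real.le_log_iff_exp_le hppos]
      have := Real.exp_one_lt_d9
      linarith
    have hLL : 1 + L ≤ 2.5 * L := by linarith
    have hLsq : 0.476 ≤ L ^ 2 := by
      have : (0.69 : ℝ) ^ 2 ≤ L ^ 2 := pow_le_pow_left₀ (by norm_num) hL069 2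
      norm_num at this ⊢
      linarith
    -- bound for `p log (2 p)`
    have hsmall : (p : ℝ) * (Real.log p + Real.log 2) ≤ 3 * M := by
      have h1 : (p : ℝ) * (Real.log p + Real.log 2) ≤ p * (2 * L) :=
        mul_le_mul_of_nonneg_left (by linarith) hppos.le
      have h2 : (p : ℝ) * (2 * L) ≤ 20 * C₁ * (p * L ^ 3) := by
        have h3 : 2 * L ≤ 20 * C₁ * L ^ 3 := by
          have h4 : L ^ 3 = L * L ^ 2 := by ring
          have h5 := mul_le_mul_of_nonneg_left hLsq hLpos.le
          rw [h4]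
          have h6 : 0 ≤ L * L ^ 2 := by positivity
          have h7 := mul_le_mul_of_nonneg_right hC₁ h6
          linarith
        calc (p : ℝ) * (2 * L) ≤ p * (20 * C₁ * L ^ 3) := mul_le_mul_of_nonneg_left h3 hppos.le
          _ = _ := by ring
      have h3 : (k : ℝ) ≤ 3 * M := by
        have := mul_le_mul_of_nonneg_left hlog2.le hkpos.le
        linarith
      linarith
    have hlogX₁ : Real.log ((U ^ p : ℕ) : ℝ) ≤ 4 * M / k := by
      rw [Nat.cast_pow, Real.log_pow, le_div_iff₀ hkpos]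
      have h1 : (p : ℝ) * Real.log U * k = p * Real.log p + p * Real.log N := by
        calc (p : ℝ) * Real.log U * k = p * (k * Real.log U) := by ring
          _ = _ := by rw [hlogN]; ring
      rw [h1]
      linarith
    have hlogX₂ : Real.log c ≤ 4 * M / k := by
      rw [le_div_iff₀ hkpos]
      linarith
    have hA1 : 1 ≤ 4 * M / k := by
      rw [mul_div_assoc]
      linarith
    have hAL : (k₀ : ℝ) ≤ 4 * M / k * l := by
      have h1 : (g : ℝ) * k₀ ≤ g * l := by rw [← hkl, ← hpk₀]; exact hpk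
      have h2 : (k₀ : ℝ) ≤ l := le_of_mul_le_mul_left h1 (by linarith)
      have h3 := mul_le_mul_of_nonneg_right hA1 (by linarith : (0:ℝ) ≤ l)
      linarith
    have hlbig : 20 * C₁ * L ^ 3 ≤ l := by
      have h1 : (g : ℝ) * (20 * C₁ * L ^ 3) ≤ g * l := by
        rw [← hkl]
        calc (g : ℝ) * (20 * C₁ * L ^ 3) ≤ p * (20 * C₁ * L ^ 3) :=
              mul_le_mul_of_nonneg_right hgp (by positivity)
          _ = 20 * C₁ * (p * L ^ 3) := by ring
          _ ≤ k := hreg
      exact le_of_mul_le_mul_left h1 (by linarith)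
    have hprod : Real.log p * (1 + Real.log l) ≤ 2.5 * L ^ 2 := by
      calc Real.log p * (1 + Real.log l) ≤ L * (2.5 * L) :=
            mul_le_mul hlogp (by linarith) (by linarith) hLpos.le
        _ = _ := by ring
    have hcond : C₁ * Real.log p * (1 + Real.log l) ≤ l := by
      have h1 : C₁ * Real.log p * (1 + Real.log l) ≤ C₁ * (2.5 * L ^ 2) := by
        rw [mul_assoc]
        exact mul_le_mul_of_nonneg_left hprod (by linarith)
      have h2 : C₁ * (2.5 * L ^ 2) ≤ 20 * C₁ * L ^ 3 := by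
        have h3 : 2.5 * L ^ 2 ≤ 20 * L ^ 3 := by
          have : L ^ 3 = L ^ 2 * L := by ring
          have h4 := mul_le_mul_of_nonneg_left hL069 (sq_nonneg L)
          linarith [sq_nonneg L]
        calc C₁ * (2.5 * L ^ 2) ≤ C₁ * (20 * L ^ 3) := mul_le_mul_of_nonneg_left h3 (by linarith)
          _ = _ := by ring
      linarith
    have hq := hArq (U ^ p) c p k₀ l (4 * M / k) (Real.log p) (Nat.one_le_pow _ _ hUpos) hc
      (by omega) hk₀pos hlpos hcop hA1 hlogp1 hlogX₁ hlogX₂ le_rfl hAL hcond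
    have hval : (g : ℝ) * (l * (Real.log ((U ^ p : ℕ) : ℝ) - Real.log c) - k₀ * Real.log p) =
        -(k * Real.log c - p * Real.log N) := by
      rw [Nat.cast_pow, Real.log_pow]
      calc (g : ℝ) * (l * (p * Real.log U - Real.log c) - k₀ * Real.log p)
          = (g * l) * (p * Real.log U - Real.log c) - (g * k₀) * Real.log p := by ring
        _ = k * (p * Real.log U - Real.log c) - p * Real.log p := by rw [← hkl, ← hpk₀]
        _ = p * (k * Real.log U) - p * Real.log p - k * Real.log c := by ring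
        _ = _ := by rw [hlogN]; ring
    have habs : |l * (Real.log ((U ^ p : ℕ) : ℝ) - Real.log c) - k₀ * Real.log p| ≤ 4 * p * e := by
      have h1 : (g : ℝ) * |l * (Real.log ((U ^ p : ℕ) : ℝ) - Real.log c) - k₀ * Real.log p| ≤
          4 * p * e := by
        have e1 : (g : ℝ) * |l * (Real.log ((U ^ p : ℕ) : ℝ) - Real.log c) - k₀ * Real.log p| =
            |(g : ℝ) * (l * (Real.log ((U ^ p : ℕ) : ℝ) - Real.log c) - k₀ * Real.log p)| := by
          rw [abs_mul, abs_of_pos (by linarith : (0:ℝ) < g)]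
        rw [e1, hval, abs_neg]
        exact hΔ
      have h2 := abs_nonneg (l * (Real.log ((U ^ p : ℕ) : ℝ) - Real.log c) - k₀ * Real.log p)
      exact (le_mul_of_one_le_left h2 hgR).trans h1
    have h9 := hq.trans habs
    have h10 := Real.log_le_log (Real.exp_pos _) h9
    rw [Real.log_exp, Real.log_mul (by positivity) he0.ne', Real.log_mul (by norm_num) hppos.ne',
      show (4:ℝ) = 2 ^ 2 by norm_num, Real.log_pow] at h10
    push_cast at h10
    have h11 : -Real.log e ≤ C₁ * (2 ^ 2 * M / k * Real.log p) * (1 + Real.log l) ^ 2 +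
        (2 * Real.log 2 + Real.log p) := by linarith
    have h12 : Real.log p * (1 + Real.log l) ^ 2 ≤ 6.25 * L ^ 3 := by
      calc Real.log p * (1 + Real.log l) ^ 2 ≤ L * (2.5 * L) ^ 2 := by
            apply mul_le_mul hlogp _ (by positivity) hLpos.le
            exact pow_le_pow_left₀ (by linarith) (by linarith) 2
        _ = _ := by ring
    have h13 : C₁ * (2 ^ 2 * M / k * Real.log p) * (1 + Real.log l) ^ 2 ≤
        25 * C₁ * (L ^ 3 / k) * M := by
      calc C₁ * (2 ^ 2 * M / k * Real.log p) * (1 + Real.log l) ^ 2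
          = (C₁ * (4 * M / k)) * (Real.log p * (1 + Real.log l) ^ 2) := by ring
        _ ≤ (C₁ * (4 * M / k)) * (6.25 * L ^ 3) := mul_le_mul_of_nonneg_left h12 (by positivity)
        _ = _ := by ring
    have h14 : (p : ℝ) * (2 * Real.log 2 + Real.log p) ≤ 10 * X * M := by
      have h15 : 2 * Real.log 2 + Real.log p ≤ 3 * L := by linarith
      have h16 : 3 * L ≤ 10 * L ^ 3 * Real.log 2 := by
        have : L ^ 3 = L * L ^ 2 := by ring
        have h18 := mul_le_mul hLsq hlog2.le (by norm_num) (sq_nonneg L)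
        have h17 : (3:ℝ) ≤ 10 * L ^ 2 * Real.log 2 := by
          norm_num at h18 ⊢
          linarith
        calc 3 * L ≤ (10 * L ^ 2 * Real.log 2) * L := mul_le_mul_of_nonneg_right h17 hLpos.le
          _ = _ := by ring
      calc (p : ℝ) * (2 * Real.log 2 + Real.log p) ≤ p * (10 * L ^ 3 * Real.log 2) :=
            mul_le_mul_of_nonneg_left (h15.trans h16) hppos.le
        _ = 10 * X * (k * Real.log 2) := by rw [hX]; field_simp
        _ ≤ 10 * X * M := mul_le_mul_of_nonneg_left hM (by positivity)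
    calc -(p * Real.log e) = p * -Real.log e := by ring
      _ ≤ p * (C₁ * (2 ^ 2 * M / k * Real.log p) * (1 + Real.log l) ^ 2 +
          (2 * Real.log 2 + Real.log p)) := mul_le_mul_of_nonneg_left h11 hppos.le
      _ ≤ p * (25 * C₁ * (L ^ 3 / k) * M) + 10 * X * M := by
          rw [mul_add]
          exact add_le_add (mul_le_mul_of_nonneg_left h13 hppos.le) h14
      _ = 25 * C₁ * X * M + 10 * X * M := by rw [hX]; ring
      _ ≤ 36 * C₁ * X * M := by
          have : 0 < X * M := by positivity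
          have h19 := mul_le_mul_of_nonneg_right hC₁ this.le
          linarith

/-- the comparison of `log (1 ± x)` and `p log (1 ± e)`, `x = e ^ p` -/
theorem log_bounds {e : ℝ} {p : ℕ} (hp : 3 ≤ p) (he0 : 0 < e) (he : e ≤ 1 / 2) :
    |Real.log (1 + e ^ p) - p * Real.log (1 + e)| ≤ 4 * p * e ∧
    |Real.log (1 - e ^ p) - p * Real.log (1 - e)| ≤ 4 * p * e := by
  have hp1 : (1:ℝ) ≤ p := by exact_mod_cast (by omega : 1 ≤ p)
  have hx0 : 0 < e ^ p := pow_pos he0 p
  have hxe : e ^ p ≤ e := by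
    calc e ^ p ≤ e ^ 1 := pow_le_pow_of_le_one he0.le (by linarith) (by omega)
      _ = e := pow_one e
  have hpe : e ≤ p * e := le_mul_of_one_le_left he0.le hp1
  constructor
  · have h1 : Real.log (1 + e ^ p) ≤ e ^ p := by
      have := Real.log_le_sub_one_of_pos (by linarith : 0 < 1 + e ^ p)
      linarith
    have h2 : 0 ≤ Real.log (1 + e ^ p) := Real.log_nonneg (by linarith)
    have h3 : Real.log (1 + e) ≤ e := by
      have := Real.log_le_sub_one_of_pos (by linarith : 0 < 1 + e)
      linarith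
    have h4 : 0 ≤ Real.log (1 + e) := Real.log_nonneg (by linarith)
    have h5 : p * Real.log (1 + e) ≤ p * e := mul_le_mul_of_nonneg_left h3 (by linarith)
    have h6 : 0 ≤ p * Real.log (1 + e) := mul_nonneg (by linarith) h4
    rw [abs_le]
    constructor <;> linarith
  · have key : ∀ y : ℝ, 0 < y → y ≤ 1 / 2 → -(2 * y) ≤ Real.log (1 - y) ∧ Real.log (1 - y) ≤ 0 := by
      intro y hy0 hy
      constructor
      · have h1 := Real.one_sub_inv_le_log_of_pos (by linarith : 0 < 1 - y)
        have h2 : -(2 * y) ≤ 1 - (1 - y)⁻¹ := by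
          have h3 : (1 - y)⁻¹ ≤ 1 + 2 * y := by
            rw [inv_le_iff_one_le_mul₀ (by linarith)]
            nlinarith
          linarith
        linarith
      · exact Real.log_nonpos (by linarith) (by linarith)
    have hx := key (e ^ p) hx0 (by linarith)
    have he' := key e he0 he
    have h5 : p * -(2 * e) ≤ p * Real.log (1 - e) := mul_le_mul_of_nonneg_left he'.1 (by linarith)
    have h6 : p * Real.log (1 - e) ≤ 0 := mul_nonpos_of_nonneg_of_nonpos (by linarith) he'.2
    rw [abs_le]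
    constructor <;> linarith [hx.1, hx.2]

/-- **GAP2** -/
theorem gap2 (hAbm : Stmt_Abm) (hAbp : Stmt_Abp) (hArq : Stmt_Arq) : Stmt_Gap2 := by
  obtain ⟨C₁, hC₁, hArq⟩ := hArq
  refine ⟨40 * C₁, by linarith, ?_⟩
  intro p k A B c M hp h3 hk hB hBA hcop hc hcase
  have hlog2 := Real.log_two_gt_d9
  have hlog2' := Real.log_two_lt_d9
  have hA : 1 ≤ A := by omega
  have hA0 : (0:ℝ) < A := by exact_mod_cast hA
  have hB0 : (0:ℝ) < B := by exact_mod_cast hB
  have hBA' : (B : ℝ) < A := by exact_mod_cast hBA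
  have hkpos : (0:ℝ) < k := by exact_mod_cast (by omega : 0 < k)
  have hppos : (0:ℝ) < p := by exact_mod_cast (by omega : 0 < p)
  have hp1 : (1:ℝ) ≤ p := by exact_mod_cast (by omega : 1 ≤ p)
  have hk2 : (2:ℝ) ≤ k := by exact_mod_cast hk
  have hL2 : Real.log 2 ≤ Real.log k := Real.log_le_log (by norm_num) hk2
  have hL3 : 1 / 4 ≤ Real.log k ^ 3 := by
    have : (0.69 : ℝ) ^ 3 ≤ Real.log k ^ 3 := pow_le_pow_left₀ (by norm_num) (by linarith) 3
    norm_num at this ⊢
    linarith
  set X : ℝ := p * Real.log k ^ 3 / k with hX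
  have hXpos : 0 < X := by positivity
  set e : ℝ := B / A with he
  have he0 : 0 < e := by positivity
  have he1 : e < 1 := (div_lt_one hA0).mpr hBA'
  have hxe : e ^ p = (B : ℝ) ^ p / (A : ℝ) ^ p := div_pow _ _ _
  have hloge : Real.log e = Real.log B - Real.log A := Real.log_div hB0.ne' hA0.ne'
  have hlogB : 0 ≤ Real.log B := Real.log_nonneg (by exact_mod_cast hB)
  have hAp : (0:ℝ) < (A : ℝ) ^ p := by positivity
  -- common facts
  obtain ⟨N, U, hN, hne, hcM, hNM, hM, hU, hΔ, hD⟩ : ∃ N U : ℕ, 1 ≤ N ∧ c ^ k ≠ N ^ p ∧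
      k * Real.log c ≤ M ∧ p * Real.log N ≤ M + p * Real.log 2 ∧ k * Real.log 2 ≤ M ∧
      (U ^ k = N ∨ U ^ k = p * N) ∧
      (e ≤ 1 / 2 → |k * Real.log c - p * Real.log N| ≤ 4 * p * e) ∧
      M - p * Real.log B ≤ -(p * Real.log e) + Real.log 2 := by
    have h2c : ∀ {x : ℝ}, Real.log ((c ^ k : ℕ) : ℝ) ≤ x → 2 ≤ c → k * Real.log 2 ≤ x := by
      intro x hx h2
      rw [Nat.cast_pow, Real.log_pow] at hx
      have h2' : (2:ℝ) ≤ c := by exact_mod_cast h2
      have := mul_le_mul_of_nonneg_left (Real.log_le_log (by norm_num) h2') hkpos.le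
      linarith
    rcases hcase with ⟨heq, hMeq⟩ | ⟨heq, hMeq⟩
    · -- the plus case
      have hc2 : 2 ≤ c := by
        by_contra hlt
        have : c = 1 := by omega
        rw [this, one_pow] at heq
        have h1 := Nat.one_le_pow p A hA
        have h2 := Nat.one_le_pow p B hB
        omega
      have hcR : ((c ^ k : ℕ) : ℝ) = (A : ℝ) ^ p + (B : ℝ) ^ p := by
        rw [← heq]; push_cast; ring
      have hcR2 : ((c ^ k : ℕ) : ℝ) = (A : ℝ) ^ p * (1 + e ^ p) := by
        rw [hcR, hxe]; field_simp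
      have hlogck : k * Real.log c = p * Real.log A + Real.log (1 + e ^ p) := by
        rw [← Real.log_pow, ← Nat.cast_pow, hcR2, Real.log_mul hAp.ne' (by positivity),
          Real.log_pow]
      have hMk : M = k * Real.log c := by rw [hMeq, Real.log_pow]
      have hx1 : e ^ p ≤ 1 := pow_le_one₀ he0.le he1.le
      have hlx : Real.log (1 + e ^ p) ≤ Real.log 2 :=
        Real.log_le_log (by positivity) (by linarith)
      have hlx0 : 0 ≤ Real.log (1 + e ^ p) := Real.log_nonneg (by linarith [pow_pos he0 p])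
      have hNR : ((A + B : ℕ) : ℝ) = A * (1 + e) := by
        have e1 : (A : ℝ) * (B / A) = B := by field_simp
        rw [he, mul_add, e1]
        push_cast
        ring
      have hlogN : Real.log ((A + B : ℕ) : ℝ) = Real.log A + Real.log (1 + e) := by
        rw [hNR, Real.log_mul hA0.ne' (by positivity)]
      obtain ⟨U, hU⟩ : ∃ U : ℕ, U ^ k = A + B ∨ U ^ k = p * (A + B) := by
        rcases hAbp p A B c k hp h3 hcop hB hA (by omega) heq with ⟨U, h⟩ | ⟨U, -, h⟩
        · exact ⟨U, Or.inl h.symm⟩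
        · exact ⟨U, Or.inr h.symm⟩
      refine ⟨A + B, U, by omega, ?_, hMk.ge, ?_, h2c (by rw [hMeq, Nat.cast_pow]) hc2, hU, ?_, ?_⟩
      · rw [← heq]
        exact (pow_add_lt hA hB (by omega)).ne
      · rw [hlogN, hMk, hlogck]
        have : Real.log (1 + e) ≤ Real.log 2 := Real.log_le_log (by positivity) (by linarith)
        have := mul_le_mul_of_nonneg_left this hppos.le
        linarith
      · intro he2
        have := (log_bounds h3 he0 he2).1
        rw [hlogck, hlogN]
        have e1 : p * Real.log A + Real.log (1 + e ^ p) - p * (Real.log A + Real.log (1 + e)) =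
            Real.log (1 + e ^ p) - p * Real.log (1 + e) := by ring
        rw [e1]
        exact this
      · rw [hMk, hlogck, hloge]
        linarith
    · -- the minus case
      have hlt := pow_add_lt hB (by omega : 1 ≤ A - B) (by omega : 2 ≤ p)
      rw [Nat.add_sub_cancel' hBA.le] at hlt
      have hc2 : 2 ≤ c := by
        by_contra hlt2
        have : c = 1 := by omega
        rw [this, one_pow] at heq
        have h2 := Nat.one_le_pow p (A - B) (by omega)
        omega
      have hcle : c ^ k ≤ A ^ p := by omega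
      have hcpos : 0 < c ^ k := Nat.pow_pos hc
      have hcR : ((c ^ k : ℕ) : ℝ) = (A : ℝ) ^ p - (B : ℝ) ^ p := by
        have : ((B ^ p + c ^ k : ℕ) : ℝ) = ((A ^ p : ℕ) : ℝ) := by rw [heq]
        push_cast at this ⊢
        linarith
      have hcR2 : ((c ^ k : ℕ) : ℝ) = (A : ℝ) ^ p * (1 - e ^ p) := by
        rw [hcR, hxe]; field_simp
      have hx1 : e ^ p < 1 := pow_lt_one₀ he0.le he1 (by omega)
      have hlogck : k * Real.log c = p * Real.log A + Real.log (1 - e ^ p) := by
        rw [← Real.log_pow, ← Nat.cast_pow, hcR2, Real.log_mul hAp.ne' (by linarith),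
          Real.log_pow]
      have hMk : M = p * Real.log A := by rw [hMeq, Real.log_pow]
      have hNR : ((A - B : ℕ) : ℝ) = A * (1 - e) := by
        have e1 : (A : ℝ) * (B / A) = B := by field_simp
        rw [he, Nat.cast_sub hBA.le, mul_sub, e1]
        ring
      have hlogN : Real.log ((A - B : ℕ) : ℝ) = Real.log A + Real.log (1 - e) := by
        rw [hNR, Real.log_mul hA0.ne' (by linarith)]
      have hckM : Real.log ((c ^ k : ℕ) : ℝ) ≤ M := by
        rw [hMeq]
        exact Real.log_le_log (by exact_mod_cast hcpos) (by exact_mod_cast hcle)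
      obtain ⟨U, hU⟩ : ∃ U : ℕ, U ^ k = A - B ∨ U ^ k = p * (A - B) := by
        rcases hAbm p A B c k hp h3 hcop hB hBA (by omega) heq with
          ⟨U, v, -, h, -, -⟩ | ⟨U, v, -, h, -⟩
        · exact ⟨U, Or.inl (by omega)⟩
        · exact ⟨U, Or.inr (by rw [Nat.mul_sub]; omega)⟩
      refine ⟨A - B, U, by omega, ?_, ?_, ?_, h2c hckM hc2, hU, ?_, ?_⟩
      · omega
      · rw [Nat.cast_pow, Real.log_pow] at hckM
        exact hckM
      · rw [hlogN, hMk]
        have h1 : Real.log (1 - e) ≤ 0 := Real.log_nonpos (by linarith) (by linarith)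
        have h2 := mul_nonpos_of_nonneg_of_nonpos hppos.le h1
        have h3 : 0 ≤ p * Real.log 2 := by positivity
        linarith
      · intro he2
        have := (log_bounds h3 he0 he2).2
        rw [hlogck, hlogN]
        have e1 : p * Real.log A + Real.log (1 - e ^ p) - p * (Real.log A + Real.log (1 - e)) =
            Real.log (1 - e ^ p) - p * Real.log (1 - e) := by ring
        rw [e1]
        exact this
      · rw [hMk, hloge]
        linarith
  have hMpos : 0 < M := lt_of_lt_of_le (by positivity) hM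
  have hXM : 0 < X * M := by positivity
  -- `M / k ≤ 4 X M`
  have hMk4 : (p : ℝ) * Real.log 2 ≤ 4 * (X * M) := by
    have h1 : (p : ℝ) * Real.log 2 ≤ p * (M / k) := by
      apply mul_le_mul_of_nonneg_left _ hppos.le
      rw [le_div_iff₀ hkpos]
      linarith
    have h2 : (p : ℝ) * (M / k) ≤ p * (M / k) * (4 * Real.log k ^ 3) :=
      le_mul_of_one_le_right (by positivity) (by linarith)
    have h3 : (p : ℝ) * (M / k) * (4 * Real.log k ^ 3) = 4 * (X * M) := by rw [hX]; ring
    linarith
  have hl2 : Real.log 2 ≤ p * Real.log 2 := le_mul_of_one_le_left (by linarith) hp1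
  have hCXM := mul_le_mul_of_nonneg_right hC₁ hXM.le
  have goal_eq : 40 * C₁ * X * M = 40 * (C₁ * (X * M)) := by ring
  rw [goal_eq]
  rcases lt_or_ge (k : ℝ) (20 * C₁ * (p * Real.log k ^ 3)) with hreg | hreg
  · -- trivial range
    have h1 : (1:ℝ) ≤ 20 * C₁ * X := by
      rw [hX]
      have : (1:ℝ) ≤ 20 * C₁ * (p * Real.log k ^ 3) / k := (one_le_div hkpos).mpr hreg.le
      calc (1:ℝ) ≤ 20 * C₁ * (p * Real.log k ^ 3) / k := this
        _ = _ := by ring
    have h2 := mul_le_mul_of_nonneg_right h1 hMpos.le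
    have h3 : 0 ≤ p * Real.log B := by positivity
    have h4 : 20 * C₁ * X * M = 20 * (C₁ * (X * M)) := by ring
    rw [h4] at h2
    linarith
  · rcases lt_or_ge (1 / 2) e with he2 | he2
    · have h1 : -Real.log e ≤ Real.log 2 := by
        have := Real.log_le_log (by norm_num) he2.le
        rw [one_div, Real.log_inv] at this
        linarith
      have h2 := mul_le_mul_of_nonneg_left h1 hppos.le
      linarith
    · have h1 := core C₁ hC₁ hArq p k c N U M e h3 hk hc hN he0 (hΔ he2) hne hcM hNM hM hU hreg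
      have h4 : 36 * C₁ * X * M = 36 * (C₁ * (X * M)) := by ring
      rw [← hX, h4] at h1
      linarith

end Pool.Agent.Work.MP_2738db_nt_Y.helper94
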